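import Pool.Agent.H82.ZC.Psi
import Pool.Agent.H80.ZC.Zco
import Pool.Agent.H87.GEN.Pkg

/-!
# Labels in the zooms: the input (Psi1) of the theorem on the sheared class

`lbr_of_lb`: a closed label with a small gradient is stable. `Pk.lbr_att`: at a good window of an
order each coordinate before the last one has stable closed labels over the coordinates before it,
on all large events of the class, with a precision up to its number.
`psi_zpr`, `psi_num`: the labels in the zooms in the form of the theorem on the sheared class.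
`Pk.psi1`: the same with the numbers of the order.
-/

set_option autoImplicit false

namespace Pool.ZFW

open Finset Real MvPolynomial
open Pool.Agent.H49.Ent Pool.Agent.H32.Dense Pool.STK Pool.KA Pool.KSAT Pool.K2S Pool.PB Pool.S6C
open Pool.GEN Pool.ZCL Pool.TOP Pool.ZLC Pool.ONE Pool.ZCO
open Pool.GRD (LbP)

variable {m n : ℕ}

/-- The label of the target on a part of each event. -/
def PsF (t : Fin n) (K : ℕ) (v q τ : ℝ) : Stat n := fun J G A =>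
  ∃ B : G.Ω → Prop, Sub B A ∧ Real.exp (-(τ * J)) * Pe G.p A ≤ Pe G.p B ∧
    (tgs t).T () K ⌊v * J⌋₊ ⌊v * J⌋₊ ⌊q * J⌋₊ J G B

/-- **Labels in the zooms**, as a statement on all closed data. -/
theorem psi_zpr {S : PCl m} {C₀ : ℝ} (hC₀ : 0 ≤ C₀) (htm : TmC S C₀) {w₁ wg v Dg x q : ℝ}
    (hw0 : 0 < w₁) (hw1 : w₁ < 1) (hv0 : 0 < v) (hv1 : v ≤ 1) (hwg : wg < w₁ + v * (1 - w₁))
    (hDg : Dg ≤ 1) (hx : 0 ≤ x) (hq0 : 0 ≤ q) (hq1 : q ≤ 1) (hq : x + w₁ + q * (1 - w₁) < Dg)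
    {e : Fin n → Fin m} {I : Finset (Fin m)} {u : Fin m} {t : Fin n} {s : Fin m → Fin n} {K : ℕ}
    (hlab : Bas S (fun J F A => LbR 8 F I u K ⌊wg * J⌋₊ ⌊Dg * J⌋₊ A)) {τ : ℝ} (hτ : 0 < τ) :
    ∃ h' : ℝ, 0 < h' ∧ ZPr S w₁ e (PsR w₁ e I u t s x h') (PsF t (max K 1) v q τ) := by
  obtain ⟨h', hh', ψ, hψ, τ₀, hτ₀, J₀, h1⟩ := psi_gen hC₀ htm hw0 hw1 hv0 hv1 hwg hDg hx hq0 hq1 hq
    (e := e) (t := t) (s := s) hlab hτ
  exact ⟨h', hh', ψ, hψ, τ₀, hτ₀, J₀, fun J hJ F A hS κ C z z' _ hR hl J' hJ' B hBA hPB =>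
    h1 J hJ F A hS κ C z' hR hl J' hJ' B hBA hPB⟩

/-- **Labels in the zooms**, up to the number `D` of the target. -/
theorem psi_num {S : PCl m} {C₀ : ℝ} (hC₀ : 0 ≤ C₀) (htm : TmC S C₀) {w₁ v x D : ℝ}
    (hw0 : 0 < w₁) (hw1 : w₁ < 1) (hv0 : 0 < v) (hv1 : v ≤ 1) (hx : 0 ≤ x) (hD0 : 0 < D)
    (hD1 : D ≤ 1) {I : Finset (Fin m)} {u : Fin m}
    (hlab : ∀ h : ℝ, 0 < h → ∃ (wg Dg : ℝ) (K : ℕ), wg < w₁ + v * (1 - w₁) ∧ Dg ≤ 1 ∧
      x + w₁ + (D - h) * (1 - w₁) < Dg ∧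
      Bas S (fun J F A => LbR 8 F I u K ⌊wg * J⌋₊ ⌊Dg * J⌋₊ A))
    (e : Fin n → Fin m) (t : Fin n) (s : Fin m → Fin n) {h : ℝ} (hh : 0 < h) :
    ∃ (K : ℕ) (δ : ℝ), 0 < δ ∧ ∀ τ : ℝ, 0 < τ → ∃ h' : ℝ, 0 < h' ∧
      ZPr S w₁ e (PsR w₁ e I u t s (x + δ) h') (PsF t K v (D - h) τ) := by
  obtain ⟨h₂, hh₂⟩ : ∃ h₂, h₂ = min h (D / 2) := ⟨_, rfl⟩
  have hh0 : 0 < h₂ := by rw [hh₂]; exact lt_min hh (by linarith)
  have h3 : h₂ ≤ h := by rw [hh₂]; exact min_le_left _ _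
  have h4 : h₂ ≤ D / 2 := by rw [hh₂]; exact min_le_right _ _
  obtain ⟨wg, Dg, K, h5, h6, h7, h8⟩ := hlab h₂ hh0
  obtain ⟨δ, hδ⟩ : ∃ δ, δ = (Dg - (x + w₁ + (D - h₂) * (1 - w₁))) / 2 := ⟨_, rfl⟩
  have hδ0 : 0 < δ := by rw [hδ]; linarith
  refine ⟨max K 1, δ, hδ0, fun τ hτ => ?_⟩
  obtain ⟨h', hh', h9⟩ := psi_zpr hC₀ htm hw0 hw1 hv0 hv1 h5 h6 (x := x + δ) (q := D - h₂)
    (by linarith) (by linarith) (by linarith) (by linarith) (e := e) (t := t) (s := s) h8 hτ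
  refine ⟨h', hh', h9.mono ?_⟩
  rintro J G A ⟨B, k1, k2, k3⟩
  exact ⟨B, k1, k2, (tgs t).anti (Nat.floor_le_floor (mul_le_mul_of_nonneg_right (by linarith)
    (Nat.cast_nonneg J))) k3⟩

/-- **A closed label with a small gradient is stable.** -/
theorem lbr_of_lb {J : ℕ} {F : Fam m J} {I : Finset (Fin m)} {k : Fin m} {K e w ρ P Q c : ℕ}
    {A : F.Ω → Prop} (h : Lb F I k K e J w ρ P A) (hc : 8 * ((m : ℝ) + 1) ≤ 2 ^ c)
    (hρ : ρ + 4 ≤ J) (hP : Q + 1 ≤ P) (hQ : e + c + (Q + 1) ≤ J) : LbR 8 F I k K w Q A := by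
  obtain ⟨V, z, z', G, h⟩ := h
  refine lbr_of_lbp (LbP.of h) (R := 8) (a := 2 ^ e) (U := ρ + 1) (by positivity) ?_ ?_ hP ?_
  · rw [div_le_div_iff₀ (by positivity) (by positivity), one_mul]
    calc (8 : ℝ) * 2 ^ (ρ + 1) = 2 ^ (ρ + 4) := by rw [pow_add, pow_add]; ring
      _ ≤ 2 ^ J := pow_le_pow_right₀ one_le_two hρ
  · intro ω hω b hb o
    refine h.lip ω hω b (fun o' => (hb o').trans (le_of_eq ?_)) o
    rw [pow_succ]
    field_simp
  · have e1 : (2 : ℝ) ^ e * (((m : ℝ) + 1) * (8 / 2 ^ J)) =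
        2 ^ e * (8 * ((m : ℝ) + 1)) / 2 ^ J := by ring
    rw [e1, div_le_div_iff₀ (by positivity) (by positivity), one_mul]
    calc (2 : ℝ) ^ e * (8 * ((m : ℝ) + 1)) * 2 ^ (Q + 1) ≤ 2 ^ e * 2 ^ c * 2 ^ (Q + 1) :=
          mul_le_mul_of_nonneg_right (mul_le_mul_of_nonneg_left hc (by positivity)) (by positivity)
      _ = 2 ^ (e + c + (Q + 1)) := by rw [pow_add 2 (e + c) (Q + 1), pow_add 2 e c]
      _ ≤ 2 ^ J := pow_le_pow_right₀ one_le_two hQ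

end Pool.ZFW

namespace Pool.PKG

open MeasureTheory Set Filter Topology
open Pool.Agent.H49.Ent Pool.Agent.H32.Dense Pool.STK Pool.KA Pool.KSAT Pool.K2S Pool.PB
open Pool.GEN Pool.S6C Pool.STAT Pool.CHT Pool.GRW Pool.ONE Pool.STA
open Pool.LBT (LSys ThrOf)
open Pool.LBN (cof)
open Pool.ALL (RateOf)
open Pool.TOP (LbR)
open Pool.ZCO (ZPr)
open Pool.ZFW (PsR PsF)

variable {n : ℕ} {hn : 2 ≤ n} {S : PCl n} {P : ℝ → ℝ → ℝ} {r : ℝ → ℝ}
  {P' : ℕ → List (Fin n) × Fin n → ℝ → ℝ → ℝ} {Λ : Finset (Fin n) → Fin n → ℝ → ℝ → ℝ}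

/-- The coordinates before the `l`-th one. -/
theorem img_cc (σ : Equiv.Perm (Fin (n - 1))) {l : ℕ} (hl : l < n - 1) :
    (Finset.Iio (⟨l, hl⟩ : Fin (n - 1))).image (fun i => bse (σ i)) =
      (Finset.range l).image (cc hn σ) := by
  ext x
  simp only [Finset.mem_image, Finset.mem_Iio, Finset.mem_range]
  constructor
  · rintro ⟨i, hi, rfl⟩
    exact ⟨i, hi, cc_lt hn σ i.2⟩
  · rintro ⟨i, hi, rfl⟩
    exact ⟨⟨i, hi.trans hl⟩, hi, (cc_lt hn σ (hi.trans hl)).symm⟩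

/-- **Stable closed labels at the good windows**, on all large events. -/
theorem Pk.lbr_att (H : Pk hn S P r P' Λ) (hF : FZX (n - 1)) {o : Od n} {w α Q c : ℝ}
    (hw : w ∈ Gs P r P' Λ o) (Fc : Fac hn S P r P' o w α Q c) {l : ℕ} (hl : l < n - 1)
    {h : ℝ} (hh : 0 < h) : ∃ K : ℕ, Bas S (fun J F A =>
      LbR 8 F ((Finset.range l).image (cc hn o.1.1)) (cc hn o.1.1 l) K ⌊w * J⌋₊
        ⌊(LL hn P P' o (l + 1) w w - h) * J⌋₊ A) := by
  classical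
  obtain ⟨al, g₀, s, d, e₀, K₀, N, hal, hg₀, hC⟩ := H.cl
  have hW := hw.1
  have hw0 := hW.1.1
  have hw1 := hW.1.2.1
  have hth := tht_pos o.2
  have hcε : ∀ i : Fin (n - 1), cc hn o.1.1 i = bse (o.1.1 i) := fun i => cc_lt hn _ i.2
  have hinj : Function.Injective (fun i => bse (o.1.1 i) : Fin (n - 1) → Fin n) :=
    bse_inj.comp o.1.1.injective
  have hex : VExa S Λ (fun i => bse (o.1.1 i)) w := by
    intro ρ hρ
    refine vst_exa hF hC.ne (C₀ := 6) (by norm_num) H.tmc H.lam hal hg₀ hC.actm H.pos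
      hinj (fun k hk => hC.actb _ ?_) hw0 hw1 hW.1.2.2.1 hW.1.2.2.2 hρ
    exact o.1.2 k hk
  -- the numbers
  have hbet : ∀ j < n - 1, bet (P' o.2) (cc hn o.1.1) j w w < 1 - tht o.2 * w := by
    intro j hj
    have h1 := Fc.le j hj w w hw0 le_rfl Fc.gα
    have h2 : tht o.2 * w ≤ tht o.2 := mul_le_of_le_one_right hth.le hw1.le
    have h3 := Fc.thc
    linarith
  have hvs : ∀ j, (hj : j < n - 1) → vs Λ (fun i => bse (o.1.1 i)) w (j + 1) =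
      bet (P' o.2) (cc hn o.1.1) j w w := by
    intro j hj
    have h1 := (bet_lt_iff hth hC.ne (C₀ := 6) (by norm_num) H.tmc H.lam (H.cht o.2) hinj hcε hW
      hex hj).1 (hbet j hj)
    exact (bet_eq_vst hth hC.ne (C₀ := 6) (by norm_num) H.tmc H.lam (H.cht o.2) hinj hcε hW hex
      hj h1).symm
  have hc0 : 0 < c := hth.trans Fc.thc
  obtain ⟨y, hy⟩ : ∃ y, y = vs Λ (fun i => bse (o.1.1 i)) w l := ⟨_, rfl⟩
  have hy1 : y < 1 := by
    rw [hy]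
    rcases Nat.eq_zero_or_pos l with h0 | h0
    · rw [h0]
      exact hw1
    · have h1 := hvs (l - 1) (by omega)
      have e1 : l - 1 + 1 = l := by omega
      rw [e1] at h1
      rw [h1]
      have h2 := hbet (l - 1) (by omega)
      have h3 : 0 < tht o.2 * w := mul_pos hth hw0
      linarith
  obtain ⟨b, hb⟩ : ∃ b, b = bet (P' o.2) (cc hn o.1.1) l w w := ⟨_, rfl⟩
  have hLL : LL hn P P' o (l + 1) w w = b := by
    rw [LL_low (by omega) (by omega), hb]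
    rfl
  have hb1 : b ≤ 1 - c := by
    rw [hb]
    exact Fc.le l hl w w hw0 le_rfl Fc.gα
  have hb0 : w ≤ b := by
    rw [hb]
    exact (H.cht o.2).low _ _ _ hw0.le le_rfl hw1.le
  obtain ⟨e, he⟩ : ∃ e, e = min (min (h / 2) (w / 2)) (min ((1 - y) / 2) (c / 2)) := ⟨_, rfl⟩
  have he0 : 0 < e := by
    rw [he]
    exact lt_min (lt_min (by linarith) (by linarith)) (lt_min (by linarith) (by linarith))
  have e1 : e ≤ h / 2 := by rw [he]; exact (min_le_left _ _).trans (min_le_left _ _)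
  have e2 : e ≤ w / 2 := by rw [he]; exact (min_le_left _ _).trans (min_le_right _ _)
  have e3 : e ≤ (1 - y) / 2 := by rw [he]; exact (min_le_right _ _).trans (min_le_left _ _)
  have e4 : e ≤ c / 2 := by rw [he]; exact (min_le_right _ _).trans (min_le_right _ _)
  obtain ⟨K, hK⟩ := vst_att H.lam hw0 hw1 hW.1.2.2.1 hW.1.2.2.2 he0
  have h1 := hK ⟨l, hl⟩ ⟨l, hl⟩ le_rfl
  obtain ⟨cm, hcm⟩ := pow_unbounded_of_one_lt (8 * ((n : ℝ) + 1)) (one_lt_two : (1 : ℝ) < 2)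
  obtain ⟨J₁, hJ₁⟩ := Pool.GEN.lin (4 : ℝ) (show 0 < (1 - y) / 2 by linarith)
  obtain ⟨J₂, hJ₂⟩ := Pool.GEN.lin (2 : ℝ) (show 0 < h / 2 by linarith)
  obtain ⟨J₃, hJ₃⟩ := Pool.GEN.lin (2 : ℝ) (show 0 < w / 2 by linarith)
  obtain ⟨J₄, hJ₄⟩ := Pool.GEN.lin ((cm : ℝ) + 1) (show 0 < c / 2 by linarith)
  refine ⟨K, h1.mono (max (max J₁ J₂) (max J₃ J₄)) ?_⟩
  intro J hJ F A h2
  simp only [ge_iff_le, max_le_iff] at hJ
  obtain ⟨⟨hJ1, hJ2⟩, hJ3, hJ4⟩ := hJ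
  replace hJ1 := hJ₁ J hJ1
  replace hJ2 := hJ₂ J hJ2
  replace hJ3 := hJ₃ J hJ3
  replace hJ4 := hJ₄ J hJ4
  have hJr : (0 : ℝ) ≤ J := Nat.cast_nonneg J
  have h2' : Lb F ((Finset.range l).image (cc hn o.1.1)) (cc hn o.1.1 l) K ⌊e * J⌋₊ J ⌊w * J⌋₊
      ⌊min (y + e) 1 * J⌋₊ ⌊(b - e) * J⌋₊ A := by
    have h3 := h2
    rw [img_cc (hn := hn) o.1.1 hl] at h3
    rw [hvs l hl, ← hb, ← hy] at h3
    rw [hcε ⟨l, hl⟩]
    exact h3
  rw [hLL]
  have hye : (y + e) * (J : ℝ) ≤ J - 4 := by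
    have h3 : (y + e) * (J : ℝ) ≤ (1 - (1 - y) / 2) * J :=
      mul_le_mul_of_nonneg_right (by linarith) hJr
    have h4 : (1 - (1 - y) / 2) * (J : ℝ) = J - (1 - y) / 2 * J := by ring
    linarith
  have hρ : ⌊min (y + e) 1 * (J : ℝ)⌋₊ + 4 ≤ J := by
    have h3 : min (y + e) 1 * (J : ℝ) ≤ J - 4 :=
      (mul_le_mul_of_nonneg_right (min_le_left _ _) hJr).trans hye
    have h5 : (0 : ℝ) ≤ J - 4 := by
      have h6 : (1 - y) / 2 ≤ 1 := by
        have hy0 : 0 ≤ y := by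
          rw [hy]
          rcases Nat.eq_zero_or_pos l with h0 | h0
          · rw [h0]
            exact hw0.le
          · have h1 := hvs (l - 1) (by omega)
            have e1 : l - 1 + 1 = l := by omega
            rw [e1] at h1
            rw [h1]
            exact hw0.le.trans ((H.cht o.2).low _ _ _ hw0.le le_rfl hw1.le)
        linarith
      have h7 : (1 - y) / 2 * (J : ℝ) ≤ 1 * J := mul_le_mul_of_nonneg_right h6 hJr
      linarith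
    have h6 : ((⌊min (y + e) 1 * (J : ℝ)⌋₊ : ℕ) : ℝ) ≤ J - 4 := by
      rcases le_or_gt 0 (min (y + e) 1 * (J : ℝ)) with h7 | h7
      · exact (Nat.floor_le h7).trans h3
      · rw [Nat.floor_of_nonpos h7.le, Nat.cast_zero]
        exact h5
    have h8 : ((⌊min (y + e) 1 * (J : ℝ)⌋₊ + 4 : ℕ) : ℝ) ≤ J := by
      push_cast
      linarith
    exact_mod_cast h8
  have hbe : 2 ≤ (b - e) * (J : ℝ) := by
    have h3 : w / 2 * (J : ℝ) ≤ (b - e) * J := mul_le_mul_of_nonneg_right (by linarith) hJr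
    linarith
  have hQr : ((⌊(b - h) * (J : ℝ)⌋₊ : ℕ) : ℝ) ≤ max 0 ((b - h) * J) := by
    rcases le_or_gt 0 ((b - h) * (J : ℝ)) with h7 | h7
    · exact (Nat.floor_le h7).trans (le_max_right _ _)
    · rw [Nat.floor_of_nonpos h7.le, Nat.cast_zero]
      exact le_max_left _ _
  have hP : ⌊(b - h) * (J : ℝ)⌋₊ + 1 ≤ ⌊(b - e) * (J : ℝ)⌋₊ := by
    refine Nat.le_floor ?_
    push_cast
    rcases le_or_gt 0 ((b - h) * (J : ℝ)) with h7 | h7
    · rw [max_eq_right h7] at hQr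
      have h3 : h / 2 * (J : ℝ) ≤ (h - e) * J := mul_le_mul_of_nonneg_right (by linarith) hJr
      have h4 : (h - e) * (J : ℝ) = (b - e) * J - (b - h) * J := by ring
      linarith
    · rw [max_eq_left h7.le] at hQr
      linarith
  have hQ : ⌊e * (J : ℝ)⌋₊ + cm + (⌊(b - h) * (J : ℝ)⌋₊ + 1) ≤ J := by
    have h3 : ((⌊e * (J : ℝ)⌋₊ : ℕ) : ℝ) ≤ e * J := Nat.floor_le (by positivity)
    have h4 : (e + max 0 (b - h)) * (J : ℝ) ≤ (1 - c / 2) * J := by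
      refine mul_le_mul_of_nonneg_right ?_ hJr
      rcases le_total 0 (b - h) with h5 | h5
      · rw [max_eq_right h5]
        linarith
      · rw [max_eq_left h5]
        linarith
    have h6 : max 0 ((b - h) * (J : ℝ)) = max 0 (b - h) * J := by
      rw [max_mul_of_nonneg _ _ hJr, zero_mul]
    rw [h6] at hQr
    have h7 : ((⌊e * (J : ℝ)⌋₊ + cm + (⌊(b - h) * (J : ℝ)⌋₊ + 1) : ℕ) : ℝ) ≤ J := by
      push_cast
      have e5 : (1 - c / 2) * (J : ℝ) = J - c / 2 * J := by ring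
      have e6 : (e + max 0 (b - h)) * (J : ℝ) = e * J + max 0 (b - h) * J := by ring
      linarith
    exact_mod_cast h7
  exact Pool.ZFW.lbr_of_lb h2' hcm.le hρ hP hQ

/-- **(Psi1): labels of the target in the zooms**, with the numbers of the order. The number of the
target at the window `v` of the zoom is at least `D` if there are good windows `w` of the family
below `w₁ + v (1 - w₁)` at which the number of the coordinate `cc l` is at least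
`x + w₁ + D (1 - w₁)`, up to an error. -/
theorem Pk.psi1 (H : Pk hn S P r P' Λ) (hTop : Pool.TOP.TopS n) (hF : FZX (n - 1)) {o : Od n}
    {l : ℕ} (hl : l < n - 1) {w₁ v x D : ℝ} (hw0 : 0 < w₁) (hw1 : w₁ < 1) (hv0 : 0 < v)
    (hv1 : v ≤ 1) (hx : 0 ≤ x) (hD0 : 0 < D) (hD1 : D ≤ 1)
    (hD : ∀ h : ℝ, 0 < h → ∃ w ∈ Gs P r P' Λ o, w < w₁ + v * (1 - w₁) ∧
      x + w₁ + (D - h) * (1 - w₁) < LL hn P P' o (l + 1) w w)
    (e : Fin n → Fin n) (t : Fin n) (s : Fin n → Fin n) {h : ℝ} (hh : 0 < h) :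
    ∃ (K : ℕ) (δ : ℝ), 0 < δ ∧ ∀ τ : ℝ, 0 < τ → ∃ h' : ℝ, 0 < h' ∧
      ZPr S w₁ e (PsR w₁ e ((Finset.range l).image (cc hn o.1.1)) (cc hn o.1.1 l) t s (x + δ) h')
        (PsF t K v (D - h) τ) := by
  refine Pool.ZFW.psi_num (C₀ := 6) (by norm_num) H.tmc hw0 hw1 hv0 hv1 hx hD0 hD1 ?_ e t s hh
  intro h₁ hh₁
  obtain ⟨w, hw, h1, h2⟩ := hD h₁ hh₁
  obtain ⟨α, Q, c, Fc⟩ := H.fac hTop hF hw
  obtain ⟨h₂, hh₂⟩ : ∃ h₂, h₂ =
    (LL hn P P' o (l + 1) w w - (x + w₁ + (D - h₁) * (1 - w₁))) / 2 := ⟨_, rfl⟩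
  have h3 : 0 < h₂ := by rw [hh₂]; linarith
  obtain ⟨K, hK⟩ := H.lbr_att hF hw Fc hl h3
  refine ⟨w, LL hn P P' o (l + 1) w w - h₂, K, h1, ?_, by linarith, hK⟩
  have h4 : LL hn P P' o (l + 1) w w ≤ 1 - c := by
    rw [LL_low (by omega) (by omega)]
    exact Fc.le l hl w w Fc.g0 le_rfl Fc.gα
  have h5 := tht_pos o.2
  have h6 := Fc.thc
  linarith

end Pool.PKG
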