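import Pool.Agent.H78.KST.OUT

/-!
# Popular values over rounded lines

`pop_line`: `f` is a line with the first digits of the time, `s` a rounded line with the same digits
of the time, `T` the time. If a function `κ` of `f` is a function of `s` and of the time, and the
time is almost uniform given `f`, then `κ` is a function of `s` on an event of large probability.
-/

set_option autoImplicit false

namespace Pool.ZFW

open Finset Real
open Pool.Agent.H49.Ent Pool.Agent.H32.Dense Pool.STK Pool.KA Pool.K2S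

/-- **Popular values over rounded lines.** -/
theorem pop_line {Ω E S T V : Type} [Fintype Ω] {q : Ω → ℝ} (hq : IsLaw q) (f : Ω → E)
    (s : Ω → S) (t : Ω → T) (κ : Ω → V) (hs : Det q f s) (hκ : Det q f κ)
    (hκs : Det q (fun ω => (s ω, t ω)) κ) {N e : ℝ} (hN : CH q t s ≤ N) (he : N - e ≤ CH q t f) :
    ∃ v : S → V, Real.exp (-e) ≤ Pe q (fun ω => κ ω = v (s ω)) := by
  have h0 := hq.nonneg
  have h1 : CH q κ s + CH q t (fun ω => (κ ω, s ω)) = CH q t s + CH q κ (fun ω => (t ω, s ω)) := by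
    rw [← CH_chain h0 t κ s, ← CH_chain h0 κ t s]
    exact CH_congr h0 (fun ω ω' _ _ h => by
      simp only [Prod.mk.injEq] at h ⊢
      exact ⟨h.1.2, h.1.1⟩) (fun ω ω' _ _ h => by
      simp only [Prod.mk.injEq] at h ⊢
      exact ⟨h.1.2, h.1.1⟩) (fun ω ω' _ _ h => h) (fun ω ω' _ _ h => h)
  have h2 : CH q κ (fun ω => (t ω, s ω)) = 0 := CH_eq_zero h0 fun ω ω' a b h =>
    hκs ω ω' a b (by
      simp only [Prod.mk.injEq] at h ⊢
      exact ⟨h.2, h.1⟩)
  have h3 : CH q t f ≤ CH q t (fun ω => (κ ω, s ω)) :=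
    CH_mono_cond h0 fun ω ω' a b h => Prod.ext (hκ ω ω' a b h) (hs ω ω' a b h)
  have h4 : CH q κ s ≤ e := by linarith
  have hT : Pe q (fun _ => True) = 1 := Pe_univ hq
  obtain ⟨v, hv⟩ := Pool.KST.out_select hq (fun _ => True) κ s (by rw [hT]; exact one_pos)
  refine ⟨v, ?_⟩
  rw [hT, one_mul, div_one] at hv
  refine (Real.exp_le_exp.2 (neg_le_neg h4)).trans (hv.trans (le_of_eq ?_))
  congr 1
  funext ω
  simp

end Pool.ZFW
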