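import Pool.Agent.H9.ZC.Zpt
import Pool.Agent.H82.ZC.Lin

/-!
# Closed functions of a family are closed functions of its zooms

The zoom `zfc F W J' h C g e` in closed linear coordinates. Its lines are rounded, so that a
function of the lines of the family is not a function of the lines of the zoom, and a function of
the points of the family is not a function of the points of the zoom.

`ptz_inv`: if the point is a Lipschitz function of the coordinates of the zoom, then the point of the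
family is a function of the point of the zoom on a large event. `pop_zfc`: then each closed function
of the family at the window `W + V` is a closed function of the zoom at the window `V` on a large
event, if the time deficit is small.
-/

set_option autoImplicit false

namespace Pool.ZFW

open Finset Real MvPolynomial
open Pool.Agent.H49.Ent Pool.Agent.H32.Dense Pool.STK Pool.KA Pool.KSAT Pool.K2S Pool.PB Pool.S6C
open Pool.GEN Pool.ZCL Pool.TOP Pool.ZLC

variable {m n J : ℕ} {κ : Type}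

/-- **The point is a Lipschitz function of the coordinates of the zoom.** -/
def InvB (C : Crd m κ) (e : Fin n → Fin m) (k : κ) (R : ℝ) : Prop :=
  ∀ (x y : Fin m → ℝ) (δ : ℝ), 0 ≤ δ → (∀ j : Fin n, |C.L k x (e j) - C.L k y (e j)| ≤ δ) →
    ∀ i, |x i - y i| ≤ R * δ

section

variable (F : Fam m J) {W J' : ℕ} (h : W + J' = J) (C : Crd m κ) (g : F.Ω → κ)
  (e : Fin n → Fin m)

theorem zfc_T (ω : F.Ω) : (zfc F W J' h.le C g e).T ω = F.T ω % 2 ^ J' := by
  have e1 : J - W = J' := by omega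
  change F.T ω % 2 ^ (J - W) / 2 ^ (J - W - J') = _
  rw [e1, Nat.sub_self, pow_zero, Nat.div_one]

theorem T_eq (ω : F.Ω) : F.T ω = 2 ^ J' * F.T1 W ω + (zfc F W J' h.le C g e).T ω := by
  rw [zfc_T F h C g e]
  have e1 : J - W = J' := by omega
  unfold Fam.T1
  rw [e1]
  exact (Nat.div_add_mod (F.T ω) (2 ^ J')).symm

theorem zfc_t' (ω : F.Ω) : (zfc F W J' h.le C g e).t ω = tb F W ω := by
  have h1 := T_eq F h C g e ω
  have h2 : (F.T ω : ℝ) = 2 ^ J' * F.T1 W ω + (zfc F W J' h.le C g e).T ω := by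
    exact_mod_cast h1
  have e1 : (2 : ℝ) ^ J = 2 ^ W * 2 ^ J' := by rw [← pow_add, h]
  unfold tb Fam.t
  rw [h2, e1]
  field_simp
  ring

/-- **The points of the family** given the points of the zoom. -/
theorem ptz_near {R : ℝ} {K : ℕ} (hK : 7 * R + 1 ≤ K) {ω ω' : F.Ω}
    (hinv : InvB C e (g ω) R)
    (hpt : ptr (zfc F W J' h.le C g e) J' ω = ptr (zfc F W J' h.le C g e) J' ω') :
    F.T ω = F.T ω' ∧ F.blab W C g ω = F.blab W C g ω' ∧
      ∀ i, |F.X J ω i - F.X J ω' i| ≤ K := by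
  have a1 := Prod.ext_iff.1 hpt
  have a2 := Prod.ext_iff.1 a1.2
  have b1 : (zfc F W J' h.le C g e).X J' ω = (zfc F W J' h.le C g e).X J' ω' := a1.1
  have b2 : (zfc F W J' h.le C g e).T ω = (zfc F W J' h.le C g e).T ω' := a2.1
  have b3 : F.blab W C g ω = F.blab W C g ω' := a2.2
  have c1 := Prod.ext_iff.1 b3
  have c2 := Prod.ext_iff.1 c1.1
  have c3 : F.T1 W ω = F.T1 W ω' := (Prod.ext_iff.1 c2.1).1
  have c4 : g ω = g ω' := (Prod.ext_iff.1 c2.1).2
  have c5 : F.bcl W C g ω = F.bcl W C g ω' := (Prod.ext_iff.1 c2.2).1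
  have c6 : F.bvl C g ω = F.bvl C g ω' := (Prod.ext_iff.1 c2.2).2
  have hT : F.T ω = F.T ω' := by
    rw [T_eq F h C g e ω, T_eq F h C g e ω', b2, c3]
  have htb : tb F W ω = tb F W ω' := by
    unfold tb Fam.t
    rw [hT, c3]
  have pJ' : (0 : ℝ) < 2 ^ J' := by positivity
  have pJ : (0 : ℝ) < 2 ^ J := by positivity
  have pW : (0 : ℝ) < 2 ^ W := by positivity
  have hL : ∀ j : Fin n, |C.L (g ω) (F.x ω) (e j) - C.L (g ω) (F.x ω') (e j)| ≤ 7 / 2 ^ J := by
    intro j
    have d1 := zfc_x F h.le C g e ω j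
    have d2 := zfc_x F h.le C g e ω' j
    rw [← c4, ← c5, ← c6, ← htb] at d2
    have d3 : |(zfc F W J' h.le C g e).x ω j - (zfc F W J' h.le C g e).x ω' j| ≤ 1 / 2 ^ J' := by
      have d4 := Plk.abs_sub_lt_of_floor (congrFun b1 j :
        ⌊(2 : ℝ) ^ J' * (zfc F W J' h.le C g e).x ω j⌋ =
          ⌊(2 : ℝ) ^ J' * (zfc F W J' h.le C g e).x ω' j⌋)
      rw [← mul_sub, abs_mul, abs_of_pos pJ'] at d4
      rw [le_div_iff₀ pJ']
      linarith
    have d5 : |2 ^ W * (C.L (g ω) (F.x ω) (e j) - C.L (g ω) (F.x ω') (e j))| ≤ 7 / 2 ^ J' := by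
      have e1 : (7 : ℝ) / 2 ^ J' = 1 / 2 ^ J' + 3 / 2 ^ J' + 3 / 2 ^ J' := by ring
      rw [e1]
      rw [abs_le] at d1 d2 d3 ⊢
      constructor <;> linarith [d1.1, d1.2, d2.1, d2.2, d3.1, d3.2]
    rw [abs_mul, abs_of_pos pW, le_div_iff₀ pJ'] at d5
    have e1 : (2 : ℝ) ^ J = 2 ^ W * 2 ^ J' := by rw [← pow_add, h]
    rw [le_div_iff₀ pJ, e1]
    linarith
  refine ⟨hT, b3, fun i => ?_⟩
  have h1 := hinv (F.x ω) (F.x ω') (7 / 2 ^ J) (by positivity) hL i
  have h2 : |2 ^ J * F.x ω i - 2 ^ J * F.x ω' i| ≤ 7 * R := by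
    rw [← mul_sub, abs_mul, abs_of_pos pJ]
    have h3 := mul_le_mul_of_nonneg_left h1 pJ.le
    have e1 : 2 ^ J * (R * (7 / 2 ^ J)) = 7 * R := by
      field_simp
    linarith
  have h3 : |((F.X J ω i - F.X J ω' i : ℤ) : ℝ)| ≤ K :=
    (ENP.floor_dist h2).trans hK
  exact_mod_cast h3

/-- **The point of the family is a function of the point of the zoom**, on a large event. -/
theorem ptz_inv {R : ℝ} {K : ℕ} (hK : 7 * R + 1 ≤ K) (A : F.Ω → Prop)
    (hinv : ∀ ω, A ω → InvB C e (g ω) R) :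
    ∃ B : F.Ω → Prop, Sub B A ∧ Pe F.p A ≤ (2 * K + 1) ^ m * Pe F.p B ∧
      ∀ ω ω', B ω → B ω' → ptr (zfc F W J' h.le C g e) J' ω = ptr (zfc F W J' h.le C g e) J' ω' →
        ptr F J ω = ptr F J ω' := by
  obtain ⟨B, hBA, hPB, φ, hφ⟩ := Pool.S6K.exact_label F.isLaw K
    (ptr (zfc F W J' h.le C g e) J') (F.X J) A (fun ω ω' h1 h2 hpt =>
      (ptz_near F h C g e hK (hinv ω h1) hpt).2.2)
  refine ⟨B, hBA, hPB, fun ω ω' h1 h2 hpt => ?_⟩
  obtain ⟨a1, a2, -⟩ := ptz_near F h C g e hK (hinv ω (hBA ω h1)) hpt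
  refine Prod.ext ?_ (Prod.ext a1 ?_)
  · change F.X J ω = F.X J ω'
    rw [hφ ω h1, hφ ω' h2, hpt]
  · exact (Prod.ext_iff.1 a2).2

end

/-- **Closed functions of the family are closed functions of the zoom.** -/
theorem pop_zfc (F : Fam m J) {W J' V : ℕ} (h : W + J' = J) (hV : V ≤ J') (C : Crd m κ)
    (z' : LnT F → κ) (e : Fin n → Fin m) {B : F.Ω → Prop} (hB : 0 < Pe F.p B) {Y : Type}
    (y : PtT F → Y) (y' : LnT F → Y) (hcls : ∀ ω, B ω → y (ptr F J ω) = y' (slam F (W + V) ω))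
    (hpt : ∀ ω ω', B ω → B ω' →
      ptr (zfc F W J' h.le C (fun ω => z' (slam F W ω)) e) J' ω =
        ptr (zfc F W J' h.le C (fun ω => z' (slam F W ω)) e) J' ω' → ptr F J ω = ptr F J ω')
    {b : ℝ} (hTm : ∀ hl : IsLaw (Pool.Agent.H49.Ent.cond F.p B True), (F.res B True hl).Tm b) :
    ∃ B₁ : F.Ω → Prop, Sub B₁ B ∧ Real.exp (-b) * Pe F.p B ≤ Pe F.p B₁ ∧
      ∃ v : LnT (zfc F W J' h.le C (fun ω => z' (slam F W ω)) e) → Y, ∀ ω, B₁ ω →
        y (ptr F J ω) = v (slam (zfc F W J' h.le C (fun ω => z' (slam F W ω)) e) V ω) := by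
  classical
  obtain ⟨g, hg⟩ : ∃ g : F.Ω → κ, g = fun ω => z' (slam F W ω) := ⟨_, rfl⟩
  rw [← hg] at hpt ⊢
  have hq := isLaw_cond F.isLaw hB
  obtain ⟨q, hqd⟩ : ∃ q, q = Pool.Agent.H49.Ent.cond F.p B True := ⟨_, rfl⟩
  have hqB : ∀ ω, 0 < q ω → B ω := fun ω hω => by
    rw [hqd] at hω
    exact of_eq_true ((cond_pos_iff F.isLaw.nonneg B True ω).1 hω).2
  have hTm1 : (J : ℝ) * Real.log 2 - b ≤ CH q F.T (fun ω => (F.l ω, F.Z ω)) := by
    rw [hqd]
    exact hTm hq
  rw [← hqd] at hq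
  have hWV : W + V ≤ J := by omega
  -- the digits of the time
  have hT1W : ∀ ω, F.T1 (W + V) ω < 2 ^ (W + V) := by
    intro ω
    unfold Fam.T1
    rw [Nat.div_lt_iff_lt_mul (by positivity), ← pow_add]
    have h1 := F.tim ω
    have e1 : W + V + (J - (W + V)) = J := by omega
    rwa [e1]
  have hTr : ∀ ω, F.T ω ∈ Finset.Ico (F.T1 (W + V) ω * 2 ^ (J - (W + V)))
      ((F.T1 (W + V) ω + 1) * 2 ^ (J - (W + V))) := by
    intro ω
    rw [Finset.mem_Ico]
    unfold Fam.T1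
    have p0 : 0 < 2 ^ (J - (W + V)) := by positivity
    exact ⟨Nat.div_mul_le_self _ _, by
      rw [add_mul, one_mul]
      have := Nat.div_add_mod (F.T ω) (2 ^ (J - (W + V)))
      have h2 := Nat.mod_lt (F.T ω) p0
      rw [mul_comm] at this
      omega⟩
  have hT1s : ∀ ω, F.T1 (W + V) ω =
      2 ^ V * ((slam (zfc F W J' h.le C g e) V ω).2.1.1.1.1) +
        (slam (zfc F W J' h.le C g e) V ω).2.2 := by
    intro ω
    have c1 := Box.T1_box F hWV C g ω
    have e1 : (slam (zfc F W J' h.le C g e) V ω).2.2 = (F.box W C g).T1 V ω := by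
      change (F.T ω % 2 ^ (J - W)) / 2 ^ (J - W - J') / 2 ^ (J' - V) =
        (F.T ω % 2 ^ (J - W)) / 2 ^ (J - W - V)
      rw [Nat.div_div_eq_div_mul, ← pow_add]
      congr 2
      omega
    rw [c1, e1]
    rfl
  obtain ⟨v, hv⟩ := pop_line hq (fun ω => (F.T1 (W + V) ω, (F.l ω, F.Z ω)))
    (slam (zfc F W J' h.le C g e) V) F.T (fun ω => y (ptr F J ω)) (by
      intro ω ω' _ _ hh
      have a1 := Prod.ext_iff.1 hh
      have a2 := Prod.ext_iff.1 a1.2
      simp only at a1 a2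
      have b5 : F.T1 W ω = F.T1 W ω' := by
        rw [T1_div F (w := W) (K := V) (by omega) ω, T1_div F (w := W) (K := V) (by omega) ω',
          a1.1]
      have b6 : slam F W ω = slam F W ω' := Prod.ext a2.1 (Prod.ext a2.2 b5)
      have b7 : g ω = g ω' := by
        rw [hg]
        simp only
        rw [b6]
      exact (zfc_det F h.le C g e hV a2.1 a1.1 b7 a2.2).1) (by
      intro ω ω' h1 h2 hh
      have a1 := Prod.ext_iff.1 hh
      have a2 := Prod.ext_iff.1 a1.2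
      simp only at a1 a2 ⊢
      rw [hcls ω (hqB ω h1), hcls ω' (hqB ω' h2)]
      have b6 : slam F (W + V) ω = slam F (W + V) ω' := Prod.ext a2.1 (Prod.ext a2.2 a1.1)
      rw [b6]) (by
      intro ω ω' h1 h2 hh
      have a1 := Prod.ext_iff.1 hh
      simp only at a1 ⊢
      have a2 := Prod.ext_iff.1 a1.1
      have a3 := Prod.ext_iff.1 a2.2
      have c1 : (zfc F W J' h.le C g e).l ω = (zfc F W J' h.le C g e).l ω' := a2.1
      have c2 : (zfc F W J' h.le C g e).Z ω = (zfc F W J' h.le C g e).Z ω' := a3.1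
      have c3 : (zfc F W J' h.le C g e).T ω = (zfc F W J' h.le C g e).T ω' := by
        rw [zfc_T F h C g e, zfc_T F h C g e, a1.2]
      have c4 : (zfc F W J' h.le C g e).u ω = (zfc F W J' h.le C g e).u ω' :=
        (Prod.ext_iff.1 c1).1
      have c5 : (zfc F W J' h.le C g e).d ω = (zfc F W J' h.le C g e).d ω' :=
        (Prod.ext_iff.1 c1).2
      have c6 : (zfc F W J' h.le C g e).x ω = (zfc F W J' h.le C g e).x ω' := by
        funext i
        unfold Fam.x Fam.t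
        rw [c3, c4, c5]
      rw [hpt ω ω' (hqB ω h1) (hqB ω' h2) (Prod.ext (by
        change (zfc F W J' h.le C g e).X J' ω = (zfc F W J' h.le C g e).X J' ω'
        unfold Fam.X
        rw [c6]) (Prod.ext c3 c2))]) (N := ((J : ℝ) - (W + V : ℕ)) * Real.log 2) (e := b) (by
      have h1 := CH_le_card hq.nonneg hq.sum_one F.T (slam (zfc F W J' h.le C g e) V)
        (fun s => Finset.Ico ((2 ^ V * s.2.1.1.1.1 + s.2.2) * 2 ^ (J - (W + V)))
          ((2 ^ V * s.2.1.1.1.1 + s.2.2 + 1) * 2 ^ (J - (W + V)))) (fun ω _ => by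
          rw [← hT1s ω]
          exact hTr ω)
      have e1 : ∀ a : ℕ, (a + 1) * 2 ^ (J - (W + V)) - a * 2 ^ (J - (W + V)) =
          2 ^ (J - (W + V)) := by
        intro a
        rw [add_mul, one_mul, Nat.add_sub_cancel_left]
      refine h1.trans (le_of_eq ((congrArg (Ex q) (funext fun ω => ?_)).trans
        (Ex_const hq.sum_one (((J : ℝ) - (W + V : ℕ)) * Real.log 2))))
      rw [Nat.card_Ico, e1, Nat.cast_pow, Nat.cast_ofNat, Real.log_pow, Nat.cast_sub hWV]) (by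
      have h1 := CH_le_add hq.nonneg F.T (F.T1 (W + V)) (fun ω => (F.l ω, F.Z ω))
      have h2 := CH_le_card hq.nonneg hq.sum_one (F.T1 (W + V)) (fun ω => (F.l ω, F.Z ω))
        (fun _ => Finset.range (2 ^ (W + V))) (fun ω _ => Finset.mem_range.2 (hT1W ω))
      rw [Ex_const hq.sum_one, Finset.card_range, Nat.cast_pow, Nat.cast_ofNat,
        Real.log_pow] at h2
      have e1 : ((J : ℝ) - (W + V : ℕ)) * Real.log 2 - b =
        ((J : ℝ) * Real.log 2 - b) - (W + V : ℕ) * Real.log 2 := by ring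
      rw [e1]
      linarith)
  refine ⟨fun ω => B ω ∧ y (ptr F J ω) = v (slam (zfc F W J' h.le C g e) V ω), fun ω hω => hω.1,
    ?_, v, fun ω hω => hω.2⟩
  rw [hqd, Pe_cond, le_div_iff₀ hB] at hv
  exact hv

end Pool.ZFW
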