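import Pool.Agent.H82.ZC.Fwd
import Pool.Agent.H9.ZC.Zsc
import Pool.Agent.H62.TOP.Lbz

/-!
# Labels in the zooms of a class

`PsR`: the requirement for closed linear coordinates: the point is a Lipschitz function of the
coordinates of the zoom with a constant `4 * 2 ^ (h' J)`, and the target of the zoom is a combination
of the coordinate `u` and of the other coordinates of the zoom, with coefficients at most
`4 * 2 ^ (x J)`. `psi_gen`: if a class has stable closed labels of the coordinate `u` over the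
coordinates in `I`, with the precision `D` at the window `w`, then the zooms of the class at the
window `w₁` have labels of the target at the windows `v > (w - w₁) / (1 - w₁)` with each precision
`q < (D - x - w₁) / (1 - w₁)`, on a part `exp (- τ J)` of each large event, for every `τ > 0`.
-/

set_option autoImplicit false

namespace Pool.ZFW

open Finset Real MvPolynomial
open Pool.Agent.H49.Ent Pool.Agent.H32.Dense Pool.STK Pool.KA Pool.KSAT Pool.K2S Pool.PB Pool.S6C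
open Pool.GEN Pool.ZCL Pool.TOP Pool.ZLC Pool.ONE
open Pool.GRD (LbP)

variable {m n : ℕ}

/-- **The requirement** for the coordinates of the zoom. -/
def PsR (w₁ : ℝ) (e : Fin n → Fin m) (I : Finset (Fin m)) (u : Fin m) (t : Fin n)
    (s : Fin m → Fin n) (x h' : ℝ) : DtP m := fun J F A _ C z' =>
  ∀ ω, A ω → InvB C e (z' (slam F ⌊w₁ * J⌋₊ ω)) (4 * 2 ^ ⌊h' * J⌋₊) ∧
    ∃ (a : ℝ) (β : Fin n → ℝ), FwK C e I u t s (z' (slam F ⌊w₁ * J⌋₊ ω)) (4 * 2 ^ ⌊x * J⌋₊) a β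

theorem pow_exp (n : ℕ) : (2 : ℝ) ^ n ≤ Real.exp n := by
  have h1 : (2 : ℝ) ≤ Real.exp 1 := by
    have := Real.add_one_le_exp (1 : ℝ)
    linarith
  calc (2 : ℝ) ^ n ≤ Real.exp 1 ^ n := pow_le_pow_left₀ (by norm_num) h1 n
    _ = Real.exp n := by rw [← Real.exp_nat_mul, mul_one]

/-- **Labels in the zooms**, for general closed coordinates. -/
theorem psi_gen {S : PCl m} {C₀ : ℝ} (hC₀ : 0 ≤ C₀) (htm : TmC S C₀) {w₁ wg v Dg x q : ℝ}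
    (hw0 : 0 < w₁) (hw1 : w₁ < 1) (hv0 : 0 < v) (hv1 : v ≤ 1) (hwg : wg < w₁ + v * (1 - w₁))
    (hDg : Dg ≤ 1) (hx : 0 ≤ x) (hq0 : 0 ≤ q) (hq1 : q ≤ 1) (hq : x + w₁ + q * (1 - w₁) < Dg)
    {e : Fin n → Fin m} {I : Finset (Fin m)} {u : Fin m} {t : Fin n} {s : Fin m → Fin n} {K : ℕ}
    (hlab : Bas S (fun J F A => LbR 8 F I u K ⌊wg * J⌋₊ ⌊Dg * J⌋₊ A)) {τ : ℝ} (hτ : 0 < τ) :
    ∃ h' : ℝ, 0 < h' ∧ ∃ ψ : ℝ, 0 < ψ ∧ ∃ τ₀ : ℝ, 0 < τ₀ ∧ ∃ J₀ : ℕ, ∀ J ≥ J₀,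
      ∀ (F : Fam m J) (A : F.Ω → Prop), S.St τ₀ J F A →
      ∀ (κ : Type) (C : Crd m κ) (z' : LnT F → κ), PsR w₁ e I u t s x h' J F A κ C z' →
      ∀ (hl : IsLaw (Pool.Agent.H49.Ent.cond F.p A True)) (J' : ℕ) (hJ : ⌊w₁ * J⌋₊ + J' = J)
        (B : F.Ω → Prop), Sub B A → Real.exp (-(3 * ψ * J')) * Pe F.p A ≤ Pe F.p B →
      ∃ B₁ : F.Ω → Prop, Sub B₁ B ∧
        Real.exp (-(τ * J')) * Pe (Pool.Agent.H49.Ent.cond F.p A True) B ≤
          Pe (Pool.Agent.H49.Ent.cond F.p A True) B₁ ∧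
        (tgs t).T () (max K 1) ⌊v * J'⌋₊ ⌊v * J'⌋₊ ⌊q * J'⌋₊ J'
          (zfc (F.res A True hl) ⌊w₁ * J⌋₊ J' hJ.le C (fun ω => z' (slam F ⌊w₁ * J⌋₊ ω)) e) B₁ := by
  classical
  obtain ⟨τ₁, hτ₁, J₁, hlab⟩ := hlab
  have h01 : 0 < 1 - w₁ := by linarith
  obtain ⟨δ, hδ⟩ : ∃ δ, δ = min (τ * (1 - w₁) / (4 * C₀ + 2)) (τ₁ / 2) := ⟨_, rfl⟩
  have hδ0 : 0 < δ := by
    rw [hδ]
    exact lt_min (by positivity) (by linarith)
  have hδ1 : (4 * C₀ + 2) * δ ≤ τ * (1 - w₁) := by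
    have h1 : δ ≤ τ * (1 - w₁) / (4 * C₀ + 2) := by rw [hδ]; exact min_le_left _ _
    rw [le_div_iff₀ (by linarith)] at h1
    linarith
  have hδ2 : δ + δ ≤ τ₁ := by
    have h1 : δ ≤ τ₁ / 2 := by rw [hδ]; exact min_le_right _ _
    linarith
  obtain ⟨h', hh'⟩ : ∃ h' : ℝ, h' = δ / (m + 1) := ⟨_, rfl⟩
  have hm1 : (0 : ℝ) < (m : ℝ) + 1 := by positivity
  have hh'0 : 0 < h' := by rw [hh']; positivity
  have hh'm : m * h' ≤ δ := by
    have e1 : ((m : ℝ) + 1) * h' = δ := by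
      rw [hh']
      field_simp
    nlinarith
  obtain ⟨cn, hcn⟩ := pow_unbounded_of_one_lt (3 * (n : ℝ) + 4) (one_lt_two : (1 : ℝ) < 2)
  obtain ⟨J₂, hJ₂⟩ := lin (6 * (m : ℝ)) hδ0
  obtain ⟨J₃, hJ₃⟩ := lin (2 : ℝ) (sub_pos.2 hwg)
  obtain ⟨J₄, hJ₄⟩ := lin ((cn : ℝ) + 2 + 1 + 1) (sub_pos.2 hq)
  obtain ⟨J₅, hJ₅⟩ := lin (1 : ℝ) (mul_pos hv0 h01)
  refine ⟨h', hh'0, δ / 3, by linarith, δ, hδ0, max (max J₁ J₂) (max J₃ (max J₄ J₅)), ?_⟩
  intro J hJ F A hS κ C z' hR hl J' hJ' B hBA hPB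
  simp only [ge_iff_le, max_le_iff] at hJ
  obtain ⟨⟨hJ1, hJ2⟩, hJ3, hJ4, hJ5⟩ := hJ
  replace hJ2 := hJ₂ J hJ2
  replace hJ3 := hJ₃ J hJ3
  replace hJ4 := hJ₄ J hJ4
  replace hJ5 := hJ₅ J hJ5
  have hJr : (0 : ℝ) ≤ J := Nat.cast_nonneg J
  obtain ⟨W, hW⟩ : ∃ W, W = ⌊w₁ * (J : ℝ)⌋₊ := ⟨_, rfl⟩
  have hWr : (W : ℝ) ≤ w₁ * J := by rw [hW]; exact Nat.floor_le (by positivity)
  have hWr' : w₁ * (J : ℝ) < W + 1 := by rw [hW]; exact Nat.lt_floor_add_one _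
  have hsum : (W : ℝ) + J' = J := by
    have : W + J' = J := by rw [hW]; exact hJ'
    exact_mod_cast this
  have hJ'0 : (0 : ℝ) ≤ J' := Nat.cast_nonneg J'
  have hJ'1 : (1 - w₁) * J ≤ (J' : ℝ) := by
    have : (1 - w₁) * (J : ℝ) = J - w₁ * J := by ring
    linarith
  have hJ'2 : (J' : ℝ) ≤ (1 - w₁) * J + 1 := by
    have : (1 - w₁) * (J : ℝ) = J - w₁ * J := by ring
    linarith
  have hJ'J : (J' : ℝ) ≤ J := by
    have := Nat.cast_nonneg (α := ℝ) W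
    linarith
  -- the event
  have hA0 : 0 ≤ Pe F.p A := Pe_nonneg F.isLaw A
  have hSB : S.St (δ + δ) J F B := by
    refine S.res hδ0.le hS hBA (le_trans ?_ hPB)
    refine mul_le_mul_of_nonneg_right (Real.exp_le_exp.2 ?_) hA0
    have e1 : 3 * (δ / 3) * (J' : ℝ) = δ * J' := by ring
    rw [e1]
    have := mul_le_mul_of_nonneg_left hJ'J hδ0.le
    linarith
  obtain ⟨hB0, -⟩ := htm _ J F B (by linarith) hSB
  have hA0' : 0 < Pe F.p A := hB0.trans_le (Pe_mono F.isLaw hBA)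
  have hL : LbR 8 F I u K ⌊wg * J⌋₊ ⌊Dg * J⌋₊ B := hlab J hJ1 F B (S.mono hδ2 hSB)
  -- the constants
  obtain ⟨μ, hμ⟩ : ∃ μ, μ = ⌊h' * (J : ℝ)⌋₊ := ⟨_, rfl⟩
  have hμr : (μ : ℝ) ≤ h' * J := by rw [hμ]; exact Nat.floor_le (by positivity)
  obtain ⟨Kc, hKc⟩ : ∃ Kc : ℕ, Kc = 28 * 2 ^ μ + 1 := ⟨_, rfl⟩
  have hKc1 : 7 * (4 * (2 : ℝ) ^ μ) + 1 ≤ Kc := by
    rw [hKc]
    push_cast
    linarith
  have hloss : (2 * (Kc : ℝ) + 1) ^ m ≤ Real.exp (2 * δ * J) := by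
    have h1 : 2 * (Kc : ℝ) + 1 ≤ 2 ^ (μ + 6) := by
      rw [hKc, pow_add]
      push_cast
      have : (1 : ℝ) ≤ 2 ^ μ := one_le_pow₀ one_le_two
      norm_num
      linarith
    calc (2 * (Kc : ℝ) + 1) ^ m ≤ (2 ^ (μ + 6)) ^ m :=
          pow_le_pow_left₀ (by positivity) h1 m
      _ = 2 ^ ((μ + 6) * m) := by rw [← pow_mul]
      _ ≤ Real.exp (((μ + 6) * m : ℕ)) := pow_exp _
      _ ≤ Real.exp (2 * δ * J) := by
          refine Real.exp_le_exp.2 ?_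
          push_cast
          have h2 : (μ : ℝ) * m ≤ δ * J := by
            calc (μ : ℝ) * m ≤ h' * J * m := mul_le_mul_of_nonneg_right hμr (Nat.cast_nonneg m)
              _ = m * h' * J := by ring
              _ ≤ δ * J := mul_le_mul_of_nonneg_right hh'm hJr
          linarith
  have hTm : ∀ B' : F.Ω → Prop, Sub B' B → Pe F.p B ≤ (2 * (Kc : ℝ) + 1) ^ m * Pe F.p B' →
      ∀ hl : IsLaw (Pool.Agent.H49.Ent.cond F.p B' True),
        (F.res B' True hl).Tm (C₀ * (4 * δ) * J) := by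
    intro B' hB' hPB' hl
    have h1 : S.St (δ + δ + 2 * δ) J F B' := by
      refine S.res (by linarith) hSB hB' ?_
      have h2 : Pe F.p B ≤ Real.exp (2 * δ * J) * Pe F.p B' :=
        hPB'.trans (mul_le_mul_of_nonneg_right hloss (Pe_nonneg F.isLaw _))
      have h3 := mul_le_mul_of_nonneg_left h2 (Real.exp_pos (-(2 * δ * J))).le
      rw [← mul_assoc, ← Real.exp_add, neg_add_cancel, Real.exp_zero, one_mul] at h3
      exact h3
    have e1 : δ + δ + 2 * δ = 4 * δ := by ring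
    rw [e1] at h1
    exact (htm _ J F B' (by linarith) h1).2 hl
  -- the windows
  obtain ⟨V, hVd⟩ : ∃ V, V = ⌊v * (J' : ℝ)⌋₊ := ⟨_, rfl⟩
  have hVJ : V ≤ J' := by
    rw [hVd]
    refine Nat.floor_le_of_le ?_
    have := mul_le_mul_of_nonneg_right hv1 hJ'0
    linarith
  have hV1 : v * (J' : ℝ) < V + 1 := by rw [hVd]; exact Nat.lt_floor_add_one _
  have hvJ : v * (1 - w₁) * J ≤ v * (J' : ℝ) := by
    have := mul_le_mul_of_nonneg_left hJ'1 hv0.le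
    linarith
  have hV0 : 1 ≤ V := by
    rw [hVd]
    refine Nat.le_floor ?_
    push_cast
    linarith
  have hWV : W + V ≤ J := by
    have : W + J' = J := by rw [hW]; exact hJ'
    omega
  have hwin : ⌊wg * (J : ℝ)⌋₊ ≤ W + V := by
    refine Nat.floor_le_of_le ?_
    push_cast
    have e2 : (w₁ + v * (1 - w₁) - wg) * (J : ℝ) = w₁ * J + v * (1 - w₁) * J - wg * J := by ring
    linarith
  have hL' := LbR.mono hL hwin hWV le_rfl
  -- the precision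
  obtain ⟨P, hPd⟩ : ∃ P, P = ⌊Dg * (J : ℝ)⌋₊ := ⟨_, rfl⟩
  obtain ⟨P', hP'd⟩ : ∃ P', P' = ⌊q * (J' : ℝ)⌋₊ := ⟨_, rfl⟩
  obtain ⟨ν, hν⟩ : ∃ ν, ν = ⌊x * (J : ℝ)⌋₊ := ⟨_, rfl⟩
  have hνr : (ν : ℝ) ≤ x * J := by rw [hν]; exact Nat.floor_le (by positivity)
  have hP1 : Dg * (J : ℝ) < P + 1 := by rw [hPd]; exact Nat.lt_floor_add_one _
  have hP'1 : (P' : ℝ) ≤ q * J' := by rw [hP'd]; exact Nat.floor_le (by positivity)
  have hPJ : P ≤ J := by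
    rw [hPd]
    refine Nat.floor_le_of_le ?_
    have := mul_le_mul_of_nonneg_right hDg hJr
    linarith
  have hP'J : P' ≤ J' := by
    rw [hP'd]
    refine Nat.floor_le_of_le ?_
    have := mul_le_mul_of_nonneg_right hq1 hJ'0
    linarith
  have hqJ : q * (J' : ℝ) ≤ q * (1 - w₁) * J + 1 := by
    have h1 := mul_le_mul_of_nonneg_left hJ'2 hq0
    have e1 : q * ((1 - w₁) * (J : ℝ) + 1) = q * (1 - w₁) * J + q := by ring
    linarith
  have hexp : cn + (ν + 2) + W + P' ≤ P := by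
    have h1 : ((cn + (ν + 2) + W + P' : ℕ) : ℝ) < P + 1 := by
      push_cast
      have e2 : (Dg - (x + w₁ + q * (1 - w₁))) * (J : ℝ) =
        Dg * J - x * J - w₁ * J - q * (1 - w₁) * J := by ring
      linarith
    have h2 : cn + (ν + 2) + W + P' < P + 1 := by exact_mod_cast h1
    omega
  have hP'2 : (3 * (n : ℝ) + 4) * (4 * 2 ^ ν) * 2 ^ W * 2 ^ P' ≤ 2 ^ P := by
    calc (3 * (n : ℝ) + 4) * (4 * 2 ^ ν) * 2 ^ W * 2 ^ P' ≤
          2 ^ cn * (4 * 2 ^ ν) * 2 ^ W * 2 ^ P' := by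
          refine mul_le_mul_of_nonneg_right (mul_le_mul_of_nonneg_right
            (mul_le_mul_of_nonneg_right hcn.le (by positivity)) (by positivity)) (by positivity)
      _ = 2 ^ (cn + (ν + 2) + W + P') := by
          rw [pow_add, pow_add, pow_add, pow_add]
          norm_num
          ring
      _ ≤ 2 ^ P := pow_le_pow_right₀ one_le_two hexp
  rw [← hPd] at hL'
  -- the requirement
  subst hW
  obtain ⟨a, ha⟩ : ∃ a : κ → ℝ, ∃ β : κ → Fin n → ℝ, ∀ ω, A ω →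
      FwK C e I u t s (z' (slam F ⌊w₁ * (J : ℝ)⌋₊ ω)) (4 * 2 ^ ν)
        (a (z' (slam F ⌊w₁ * (J : ℝ)⌋₊ ω))) (β (z' (slam F ⌊w₁ * (J : ℝ)⌋₊ ω))) := by
    have h1 : ∀ k : κ, ∃ (a : ℝ) (β : Fin n → ℝ), (∃ ω, A ω ∧
        z' (slam F ⌊w₁ * (J : ℝ)⌋₊ ω) = k) → FwK C e I u t s k (4 * 2 ^ ν) a β := by
      intro k
      by_cases hk : ∃ ω, A ω ∧ z' (slam F ⌊w₁ * (J : ℝ)⌋₊ ω) = k
      · obtain ⟨ω, hω, hk'⟩ := hk
        obtain ⟨-, a, β, h2⟩ := hR ω hω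
        rw [hk', ← hν] at h2
        exact ⟨a, β, fun _ => h2⟩
      · exact ⟨0, 0, fun h => absurd h hk⟩
    choose a β h2 using h1
    exact ⟨a, β, fun ω hω => h2 _ ⟨ω, hω, rfl⟩⟩
  obtain ⟨β, hF⟩ := ha
  have hinv : ∀ ω, B ω → InvB C e (z' (slam F ⌊w₁ * (J : ℝ)⌋₊ ω)) (4 * 2 ^ μ) := by
    intro ω hω
    rw [hμ]
    exact (hR ω (hBA ω hω)).1
  obtain ⟨B₁, hB₁, hPB₁, U, ζ, ζ', G, hG⟩ := lbp_fwd F hJ' hVJ C z' e s (A := B) (M := 4 * 2 ^ ν)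
    (Q := 4 * 2 ^ μ) (by
      have : (1 : ℝ) ≤ 2 ^ ν := one_le_pow₀ one_le_two
      linarith) a β (fun ω hω => hF ω (hBA ω hω)) hinv hKc1 (R := 8) (by norm_num) hPJ hL' hB0
    (b := C₀ * (4 * δ) * J) hTm hP'2
  refine ⟨B₁, hB₁, ?_, ?_⟩
  · have hsupp : ∀ D : F.Ω → Prop, Sub D B → Pe F.p (fun ω => A ω ∧ D ω) = Pe F.p D := by
      intro D hD
      congr 1
      funext ω
      exact propext ⟨fun h => h.2, fun h => ⟨hBA ω (hD ω h), h⟩⟩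
    rw [Pe_cond, Pe_cond, hsupp B (fun _ h => h), hsupp B₁ hB₁, mul_div_assoc']
    refine div_le_div_of_nonneg_right ?_ hA0
    have h1 : Real.exp (-(C₀ * (4 * δ) * J)) * Pe F.p B ≤ Real.exp (2 * δ * J) * Pe F.p B₁ :=
      hPB₁.trans (mul_le_mul_of_nonneg_right hloss (Pe_nonneg F.isLaw _))
    have h3 := mul_le_mul_of_nonneg_left h1 (Real.exp_pos (-(2 * δ * J))).le
    have e3 : Real.exp (-(2 * δ * J)) * (Real.exp (2 * δ * J) * Pe F.p B₁) = Pe F.p B₁ := by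
      rw [← mul_assoc, ← Real.exp_add, neg_add_cancel, Real.exp_zero, one_mul]
    have e4 : Real.exp (-(2 * δ * J)) * (Real.exp (-(C₀ * (4 * δ) * J)) * Pe F.p B) =
        Real.exp (-(2 * δ * J) + -(C₀ * (4 * δ) * J)) * Pe F.p B := by
      rw [← mul_assoc, ← Real.exp_add]
    rw [e3, e4] at h3
    refine le_trans (mul_le_mul_of_nonneg_right (Real.exp_le_exp.2 ?_) hB0.le) h3
    have h4 : (4 * C₀ + 2) * δ * J ≤ τ * J' := by
      calc (4 * C₀ + 2) * δ * J ≤ τ * (1 - w₁) * J := mul_le_mul_of_nonneg_right hδ1 hJr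
        _ = τ * ((1 - w₁) * J) := by ring
        _ ≤ τ * J' := mul_le_mul_of_nonneg_left hJ'1 hτ.le
    have e1 : -(2 * δ * (J : ℝ)) + -(C₀ * (4 * δ) * J) = -((4 * C₀ + 2) * δ * J) := by ring
    rw [e1]
    linarith
  · rw [← hVd, ← hP'd]
    refine ⟨(univ.erase t).toList, (univ.erase t).nodup_toList, fun h =>
      (Finset.notMem_erase t univ) (Finset.mem_toList.1 h), ?_⟩
    exact tch_of_cls (I := univ.erase t) (fun i hi => Finset.mem_toList.2 hi) hV0 hVJ hP'J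
      (⟨hG.deg, hG.dep, fun ω hω => hG.cls ω hω, fun ω hω => hG.pos ω hω⟩ :
        LbP (zfc (F.res A True hl) ⌊w₁ * (J : ℝ)⌋₊ J' hJ'.le C
          (fun ω => z' (slam F ⌊w₁ * (J : ℝ)⌋₊ ω)) e) (univ.erase t) t (max K 1) J' V P' B₁ ζ ζ' G)

end Pool.ZFW
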