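import Pool.Agent.H82.ZC.Pnt
import Pool.Agent.H99.GEN.Gr
import Pool.Agent.H27.TOP.Lbt

/-!
# Closed labels of a family are closed labels of its zooms

`FwK`: the coordinates in `I` are coordinates of the zoom other than `t`, and the coordinate `t` of
the zoom is `a` times the coordinate `u` plus a combination of the other coordinates of the zoom.
`lbp_fwd`: then a stable closed label of the coordinate `u` over the coordinates in `I` gives a
closed label of the coordinate `t` of the zoom over the other coordinates of the zoom, on a large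
event. The precision decreases by `W` and by the size of the coefficients.
-/

set_option autoImplicit false

namespace Pool.ZFW

open Finset Real MvPolynomial
open Pool.Agent.H49.Ent Pool.Agent.H32.Dense Pool.STK Pool.KA Pool.KSAT Pool.K2S Pool.PB Pool.S6C
open Pool.GEN Pool.ZCL Pool.TOP Pool.ZLC
open Pool.GRD (LbP)

variable {m n J : ℕ} {κ : Type}

/-- **The target of the zoom** in terms of the coordinate `u`. -/
structure FwK (C : Crd m κ) (e : Fin n → Fin m) (I : Finset (Fin m)) (u : Fin m) (t : Fin n)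
    (s : Fin m → Fin n) (k : κ) (M a : ℝ) (β : Fin n → ℝ) : Prop where
  ale : |a| ≤ M
  βle : ∀ j, |β j| ≤ M
  βt : β t = 0
  ne : ∀ i ∈ I, s i ≠ t
  slot : ∀ i ∈ I, ∀ x, C.L k x (e (s i)) = x i
  rel : ∀ x, C.L k x (e t) = a * x u + ∑ j, β j * C.L k x (e j)

section

variable (W : ℕ) (τ : ℝ) (cl vl : Fin m → ℝ) (e : Fin n → Fin m)

/-- The coordinate `e j` in units of `2 ^ (-W)`, as a polynomial. -/
noncomputable def cp (j : Fin n) : MvPolynomial (Option (Fin n)) ℝ :=
  X (some j) + MvPolynomial.C (cl (e j)) + MvPolynomial.C (vl (e j)) * X none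

open Classical in
/-- The coordinates of the family as polynomials. -/
noncomputable def fv (I : Finset (Fin m)) (s : Fin m → Fin n) :
    Option (Fin m) → MvPolynomial (Option (Fin n)) ℝ
  | none => MvPolynomial.C (1 / 2 ^ W) * (MvPolynomial.C τ + X none)
  | some i => if i ∈ I then MvPolynomial.C (1 / 2 ^ W) * cp cl vl e (s i) else 0

/-- The label of the target. -/
noncomputable def fq (I : Finset (Fin m)) (s : Fin m → Fin n) (t : Fin n) (a : ℝ)
    (β : Fin n → ℝ) (G : MvPolynomial (Option (Fin m)) ℝ) : MvPolynomial (Option (Fin n)) ℝ :=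
  MvPolynomial.C (2 ^ W * a) * aeval (fv W τ cl vl e I s) G +
    ∑ j, MvPolynomial.C (β j) * cp cl vl e j -
    (MvPolynomial.C (cl (e t)) + MvPolynomial.C (vl (e t)) * X none)

theorem eval_cp (b : Option (Fin n) → ℝ) (j : Fin n) :
    eval b (cp cl vl e j) = b (some j) + cl (e j) + vl (e j) * b none := by
  unfold cp
  rw [map_add, map_add, map_mul, eval_C, eval_C, eval_X, eval_X]

theorem deg_cp (j : Fin n) : (cp cl vl e j).totalDegree ≤ 1 := by
  unfold cp
  refine (totalDegree_add _ _).trans (max_le ((totalDegree_add _ _).trans (max_le ?_ ?_)) ?_)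
  · rw [totalDegree_X]
  · rw [totalDegree_C]
    exact Nat.zero_le _
  · refine (totalDegree_mul _ _).trans ?_
    rw [totalDegree_C, totalDegree_X]

theorem deg_fv (I : Finset (Fin m)) (s : Fin m → Fin n) (o : Option (Fin m)) :
    (fv W τ cl vl e I s o).totalDegree ≤ 1 := by
  rcases o with _ | i
  · unfold fv
    refine (totalDegree_mul _ _).trans ?_
    rw [totalDegree_C, zero_add]
    refine (totalDegree_add _ _).trans (max_le ?_ ?_)
    · rw [totalDegree_C]
      exact Nat.zero_le _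
    · rw [totalDegree_X]
  · unfold fv
    simp only
    split_ifs
    · refine (totalDegree_mul _ _).trans ?_
      rw [totalDegree_C, zero_add]
      exact deg_cp cl vl e _
    · rw [totalDegree_zero]
      exact Nat.zero_le _

theorem deg_fq {K : ℕ} (I : Finset (Fin m)) (s : Fin m → Fin n) (t : Fin n) (a : ℝ)
    (β : Fin n → ℝ) {G : MvPolynomial (Option (Fin m)) ℝ} (hG : G.totalDegree ≤ K) :
    (fq W τ cl vl e I s t a β G).totalDegree ≤ max K 1 := by
  unfold fq
  refine (totalDegree_sub _ _).trans (max_le ((totalDegree_add _ _).trans (max_le ?_ ?_)) ?_)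
  · refine (totalDegree_mul _ _).trans ?_
    rw [totalDegree_C, zero_add]
    have h1 := totalDegree_aevalσ (g := fv W τ cl vl e I s) (deg_fv W τ cl vl e I s) hG
    have := le_max_left K 1
    omega
  · refine totalDegree_finsetSum_le fun j _ => ?_
    refine (totalDegree_mul _ _).trans ?_
    rw [totalDegree_C, zero_add]
    exact (deg_cp cl vl e j).trans (le_max_right _ _)
  · refine (totalDegree_add _ _).trans (max_le ?_ ?_)
    · rw [totalDegree_C]
      exact Nat.zero_le _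
    · refine (totalDegree_mul _ _).trans ?_
      rw [totalDegree_C, totalDegree_X]
      exact le_max_right _ _

/-- The point of the family. -/
noncomputable def fb (I : Finset (Fin m)) (s : Fin m → Fin n) (b : Option (Fin n) → ℝ) :
    Option (Fin m) → ℝ := fun o => eval b (fv W τ cl vl e I s o)

theorem fb_none (I : Finset (Fin m)) (s : Fin m → Fin n) (b : Option (Fin n) → ℝ) :
    fb W τ cl vl e I s b none = (τ + b none) / 2 ^ W := by
  unfold fb fv
  rw [map_mul, map_add, eval_C, eval_C, eval_X]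
  ring

theorem fb_some {I : Finset (Fin m)} {s : Fin m → Fin n} {b : Option (Fin n) → ℝ} {i : Fin m}
    (hi : i ∈ I) : fb W τ cl vl e I s b (some i) =
      (b (some (s i)) + cl (e (s i)) + vl (e (s i)) * b none) / 2 ^ W := by
  unfold fb fv
  simp only [if_pos hi]
  rw [map_mul, eval_cp, eval_C]
  ring

theorem eval_fq (I : Finset (Fin m)) (s : Fin m → Fin n) (t : Fin n) (a : ℝ)
    (β : Fin n → ℝ) (G : MvPolynomial (Option (Fin m)) ℝ) (b : Option (Fin n) → ℝ) :
    eval b (fq W τ cl vl e I s t a β G) = 2 ^ W * a * eval (fb W τ cl vl e I s b) G +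
      ∑ j, β j * (b (some j) + cl (e j) + vl (e j) * b none) -
      (cl (e t) + vl (e t) * b none) := by
  unfold fq
  rw [map_sub, map_add, map_mul, eval_C, eval_aevalσ, map_sum, map_add, map_mul, eval_C, eval_C,
    eval_X]
  congr 2
  refine Finset.sum_congr rfl fun j _ => ?_
  rw [map_mul, eval_C, eval_cp]

theorem dep_fq {I : Finset (Fin m)} {s : Fin m → Fin n} {t : Fin n} {a : ℝ} {β : Fin n → ℝ}
    {G : MvPolynomial (Option (Fin m)) ℝ} (hs : ∀ i ∈ I, s i ≠ t) (hβ : β t = 0)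
    (hG : ∀ b b' : Option (Fin m) → ℝ, b none = b' none → (∀ i ∈ I, b (some i) = b' (some i)) →
      eval b G = eval b' G) {b b' : Option (Fin n) → ℝ} (h0 : b none = b' none)
    (h1 : ∀ j, j ≠ t → b (some j) = b' (some j)) :
    eval b (fq W τ cl vl e I s t a β G) = eval b' (fq W τ cl vl e I s t a β G) := by
  rw [eval_fq, eval_fq, h0]
  congr 2
  · congr 1
    refine hG _ _ ?_ fun i hi => ?_
    · rw [fb_none, fb_none, h0]
    · rw [fb_some W τ cl vl e hi, fb_some W τ cl vl e hi, h0, h1 _ (hs i hi)]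
  · refine Finset.sum_congr rfl fun j _ => ?_
    by_cases hj : j = t
    · rw [hj, hβ, zero_mul, zero_mul]
    · rw [h1 j hj]

end

/-- **The position of the target.** -/
theorem fq_pos {F : Fam m J} {W J' : ℕ} (h : W + J' = J) {C : Crd m κ} {g : F.Ω → κ}
    {e : Fin n → Fin m} {I : Finset (Fin m)} {u : Fin m} {t : Fin n} {s : Fin m → Fin n}
    {ω : F.Ω} {M a : ℝ} {β : Fin n → ℝ} (hM : 1 ≤ M) (hF : FwK C e I u t s (g ω) M a β) {P : ℕ}
    (hP : P ≤ J) {R : ℝ} (hR : 3 ≤ R) {G : MvPolynomial (Option (Fin m)) ℝ}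
    (hdep : ∀ b b' : Option (Fin m) → ℝ, b none = b' none →
      (∀ i ∈ I, b (some i) = b' (some i)) → eval b G = eval b' G)
    (hG : ∀ b : Option (Fin m) → ℝ, (∀ o, |b o - bt F ω o| ≤ R / 2 ^ J) →
      |F.x ω u - eval b G| ≤ 1 / 2 ^ P) :
    |(zfc F W J' h.le C g e).x ω t - eval (bt (zfc F W J' h.le C g e) ω)
      (fq W (F.T1 W ω : ℝ) (fun i => (F.bcl W C g ω i : ℝ)) (fun i => (F.bvl C g ω i : ℝ)) e I s
        t a β G)| ≤ (3 * n + 4) * M * 2 ^ W / 2 ^ P := by
  classical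
  have pJ' : (0 : ℝ) < 2 ^ J' := by positivity
  have pJ : (0 : ℝ) < 2 ^ J := by positivity
  have pW : (0 : ℝ) < 2 ^ W := by positivity
  have pP : (0 : ℝ) < 2 ^ P := by positivity
  have eJ : (2 : ℝ) ^ J = 2 ^ W * 2 ^ J' := by rw [← pow_add, h]
  obtain ⟨zb, hzb⟩ : ∃ zb, zb = bt (zfc F W J' h.le C g e) ω := ⟨_, rfl⟩
  have hz0 : zb none = tb F W ω := by
    rw [hzb]
    exact zfc_t' F h C g e ω
  have hzx : ∀ j, zb (some j) = (zfc F W J' h.le C g e).x ω j := fun j => by
    rw [hzb]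
    rfl
  have hx : ∀ j : Fin n, |2 ^ W * C.L (g ω) (F.x ω) (e j) -
      (zb (some j) + (F.bcl W C g ω (e j) : ℝ) + (F.bvl C g ω (e j) : ℝ) * zb none)| ≤
      3 / 2 ^ J' := by
    intro j
    have h1 := zfc_x F h.le C g e ω j
    rw [abs_sub_comm] at h1
    rw [hz0, hzx]
    refine le_trans (le_of_eq ?_) h1
    congr 1
    ring
  rw [← hzb, ← hzx, eval_fq]
  -- the point
  obtain ⟨b, hb⟩ : ∃ b, b = fb W (F.T1 W ω : ℝ) (fun i => (F.bcl W C g ω i : ℝ))
    (fun i => (F.bvl C g ω i : ℝ)) e I s zb := ⟨_, rfl⟩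
  obtain ⟨b', hb'⟩ : ∃ b' : Option (Fin m) → ℝ, b' = fun o => match o with
    | none => b none
    | some i => if i ∈ I then b (some i) else F.x ω i := ⟨_, rfl⟩
  have hb0 : b none = F.t ω := by
    rw [hb, fb_none, hz0]
    unfold tb
    field_simp
    ring
  have hbb : eval b G = eval b' G := by
    refine hdep _ _ ?_ fun i hi => ?_
    · rw [hb']
    · rw [hb']
      simp only [if_pos hi]
  have hbd : ∀ o, |b' o - bt F ω o| ≤ R / 2 ^ J := by
    intro o
    rcases o with _ | i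
    · rw [hb']
      simp only
      rw [hb0]
      change |F.t ω - F.t ω| ≤ _
      rw [sub_self, abs_zero]
      have : 0 ≤ R := by linarith
      positivity
    · rw [hb']
      simp only
      split_ifs with hi
      · have h1 := hx (s i)
        rw [hF.slot i hi] at h1
        rw [hb, fb_some W _ _ _ e hi]
        change |_ - F.x ω i| ≤ _
        have e1 : (zb (some (s i)) + (F.bcl W C g ω (e (s i)) : ℝ) +
            (F.bvl C g ω (e (s i)) : ℝ) * zb none) / 2 ^ W - F.x ω i =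
            -(2 ^ W * F.x ω i - (zb (some (s i)) + (F.bcl W C g ω (e (s i)) : ℝ) +
            (F.bvl C g ω (e (s i)) : ℝ) * zb none)) / 2 ^ W := by
          field_simp
          ring
        rw [e1, abs_div, abs_neg, abs_of_pos pW, eJ, div_le_div_iff₀ pW (by positivity)]
        rw [le_div_iff₀ pJ'] at h1
        have h2 := mul_le_mul_of_nonneg_right h1 pW.le
        have h3 := mul_le_mul_of_nonneg_right hR pW.le
        calc _ = |2 ^ W * F.x ω i - (zb (some (s i)) + (F.bcl W C g ω (e (s i)) : ℝ) +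
            (F.bvl C g ω (e (s i)) : ℝ) * zb none)| * 2 ^ J' * 2 ^ W := by ring
          _ ≤ 3 * 2 ^ W := h2
          _ ≤ R * 2 ^ W := h3
      · change |F.x ω i - F.x ω i| ≤ _
        rw [sub_self, abs_zero]
        have : 0 ≤ R := by linarith
        positivity
  have h1 := hG b' hbd
  rw [← hbb] at h1
  rw [← hb]
  -- the sum
  have hx3 := hx t
  have e2 : zb (some t) - (2 ^ W * a * eval b G + ∑ j, β j * (zb (some j) +
      (F.bcl W C g ω (e j) : ℝ) + (F.bvl C g ω (e j) : ℝ) * zb none) -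
      ((F.bcl W C g ω (e t) : ℝ) + (F.bvl C g ω (e t) : ℝ) * zb none)) =
      2 ^ W * a * (F.x ω u - eval b G) + ∑ j, β j * (2 ^ W * C.L (g ω) (F.x ω) (e j) -
      (zb (some j) + (F.bcl W C g ω (e j) : ℝ) + (F.bvl C g ω (e j) : ℝ) * zb none)) -
      (2 ^ W * C.L (g ω) (F.x ω) (e t) - (zb (some t) + (F.bcl W C g ω (e t) : ℝ) +
        (F.bvl C g ω (e t) : ℝ) * zb none)) := by
    have e3 : ∑ j, β j * (2 ^ W * C.L (g ω) (F.x ω) (e j) -
        (zb (some j) + (F.bcl W C g ω (e j) : ℝ) + (F.bvl C g ω (e j) : ℝ) * zb none)) =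
        2 ^ W * ∑ j, β j * C.L (g ω) (F.x ω) (e j) -
        ∑ j, β j * (zb (some j) + (F.bcl W C g ω (e j) : ℝ) +
          (F.bvl C g ω (e j) : ℝ) * zb none) := by
      rw [Finset.mul_sum, ← Finset.sum_sub_distrib]
      refine Finset.sum_congr rfl fun j _ => ?_
      ring
    rw [e3, hF.rel]
    ring
  rw [e2]
  have h5 : (1 : ℝ) / 2 ^ J' ≤ 2 ^ W / 2 ^ P := by
    rw [div_le_div_iff₀ pJ' pP, one_mul, ← eJ]
    exact pow_le_pow_right₀ one_le_two hP
  have h6 : |2 ^ W * a * (F.x ω u - eval b G)| ≤ M * (2 ^ W / 2 ^ P) := by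
    rw [abs_mul, abs_mul, abs_of_pos pW]
    calc 2 ^ W * |a| * |F.x ω u - eval b G| ≤ 2 ^ W * M * (1 / 2 ^ P) :=
          mul_le_mul (mul_le_mul_of_nonneg_left hF.ale pW.le) h1 (abs_nonneg _)
            (by positivity)
      _ = M * (2 ^ W / 2 ^ P) := by ring
  have h7 : |∑ j, β j * (2 ^ W * C.L (g ω) (F.x ω) (e j) -
      (zb (some j) + (F.bcl W C g ω (e j) : ℝ) + (F.bvl C g ω (e j) : ℝ) * zb none))| ≤
      3 * n * M * (2 ^ W / 2 ^ P) := by
    refine (Finset.abs_sum_le_sum_abs _ _).trans ?_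
    have h8 : ∀ j ∈ (Finset.univ : Finset (Fin n)), |β j * (2 ^ W * C.L (g ω) (F.x ω) (e j) -
        (zb (some j) + (F.bcl W C g ω (e j) : ℝ) + (F.bvl C g ω (e j) : ℝ) * zb none))| ≤
        M * (3 * (2 ^ W / 2 ^ P)) := by
      intro j _
      rw [abs_mul]
      refine mul_le_mul (hF.βle j) ((hx j).trans ?_) (abs_nonneg _) (by linarith)
      have e4 : (3 : ℝ) / 2 ^ J' = 3 * (1 / 2 ^ J') := by ring
      rw [e4]
      linarith
    refine (Finset.sum_le_sum h8).trans (le_of_eq ?_)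
    rw [Finset.sum_const, Finset.card_univ, Fintype.card_fin, nsmul_eq_mul]
    ring
  have h9 : |2 ^ W * C.L (g ω) (F.x ω) (e t) - (zb (some t) + (F.bcl W C g ω (e t) : ℝ) +
        (F.bvl C g ω (e t) : ℝ) * zb none)| ≤ 3 * M * (2 ^ W / 2 ^ P) := by
    refine hx3.trans ?_
    have e4 : (3 : ℝ) / 2 ^ J' = 3 * (1 / 2 ^ J') := by ring
    rw [e4]
    have h10 : 0 ≤ (2 : ℝ) ^ W / 2 ^ P := by positivity
    nlinarith
  refine (abs_sub _ _).trans ((add_le_add ((abs_add_le _ _).trans (add_le_add h6 h7)) h9).trans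
    (le_of_eq ?_))
  ring

/-- **Stable closed labels of the family are closed labels of the zoom**, on a large event. -/
theorem lbp_fwd (F : Fam m J) {W J' V : ℕ} (h : W + J' = J) (hV : V ≤ J') (C : Crd m κ)
    (z' : LnT F → κ) (e : Fin n → Fin m) {I : Finset (Fin m)} {u : Fin m} {t : Fin n}
    (s : Fin m → Fin n) {A : F.Ω → Prop} {M Q : ℝ} (hM : 1 ≤ M) (a : κ → ℝ) (β : κ → Fin n → ℝ)
    (hF : ∀ ω, A ω → FwK C e I u t s (z' (slam F W ω)) M (a (z' (slam F W ω)))
      (β (z' (slam F W ω))))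
    (hinv : ∀ ω, A ω → InvB C e (z' (slam F W ω)) Q) {Kc : ℕ} (hKc : 7 * Q + 1 ≤ Kc)
    {R : ℝ} (hR : 3 ≤ R) {K P P' : ℕ} (hP : P ≤ J) (hL : LbR R F I u K (W + V) P A)
    (hA : 0 < Pe F.p A) {b : ℝ}
    (hTm : ∀ B : F.Ω → Prop, Sub B A → Pe F.p A ≤ (2 * Kc + 1) ^ m * Pe F.p B →
      ∀ hl : IsLaw (Pool.Agent.H49.Ent.cond F.p B True), (F.res B True hl).Tm b)
    (hP' : (3 * n + 4) * M * 2 ^ W * 2 ^ P' ≤ 2 ^ P) :
    ∃ B : F.Ω → Prop, Sub B A ∧
      Real.exp (-b) * Pe F.p A ≤ (2 * Kc + 1) ^ m * Pe F.p B ∧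
      ∃ (U : Type) (ζ : PtT (zfc F W J' h.le C (fun ω => z' (slam F W ω)) e) → U)
        (ζ' : LnT (zfc F W J' h.le C (fun ω => z' (slam F W ω)) e) → U)
        (G : U → MvPolynomial (Option (Fin n)) ℝ),
        LbP (zfc F W J' h.le C (fun ω => z' (slam F W ω)) e) (univ.erase t) t (max K 1) J' V P' B
          ζ ζ' G := by
  classical
  obtain ⟨Y, y, y', G, hG⟩ := hL
  obtain ⟨B₀, hB0, hPB0, hpt⟩ := ptz_inv F h C (fun ω => z' (slam F W ω)) e hKc A hinv
  have p1 : (0 : ℝ) < (2 * Kc + 1) ^ m := by positivity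
  have hB0p : 0 < Pe F.p B₀ := by
    by_contra hcon
    push Not at hcon
    have := mul_nonpos_of_nonneg_of_nonpos p1.le hcon
    linarith
  obtain ⟨B, hB, hPB, v, hv⟩ := pop_zfc F h hV C z' e hB0p y y'
    (fun ω hω => hG.cls ω (hB0 ω hω)) hpt (hTm B₀ hB0 hPB0)
  obtain ⟨g, hg⟩ : ∃ g : F.Ω → κ, g = fun ω => z' (slam F W ω) := ⟨_, rfl⟩
  have hBA : Sub B A := fun ω hω => hB0 ω (hB ω hω)
  -- the point side
  obtain ⟨ζ, hζ⟩ := fac (f := ptr (zfc F W J' h.le C (fun ω => z' (slam F W ω)) e) J')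
    (Y := fun ω => (y (ptr F J ω), F.blab W C (fun ω => z' (slam F W ω)) ω)) (B := B) (by
      intro ω ω' h1 h2 hh
      have a1 := hpt ω ω' (hB ω h1) (hB ω' h2) hh
      have a2 : F.blab W C (fun ω => z' (slam F W ω)) ω =
        F.blab W C (fun ω => z' (slam F W ω)) ω' := (Prod.ext_iff.1 (Prod.ext_iff.1 hh).2).2
      exact Prod.ext (congrArg y a1) a2)
  -- the line side
  obtain ⟨ζ', hζ'⟩ : ∃ ζ' : LnT (zfc F W J' h.le C (fun ω => z' (slam F W ω)) e) →
      Option (Y × ((((ℕ × κ) × ((Fin m → ℤ) × (Fin m → ℤ))) × F.ζ))),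
      ζ' = fun s => some (v s, s.2.1) := ⟨_, rfl⟩
  have hζ'v : ∀ ω, B ω → ζ' (slam (zfc F W J' h.le C (fun ω => z' (slam F W ω)) e) V ω) =
      some (y' (slam F (W + V) ω), F.blab W C (fun ω => z' (slam F W ω)) ω) := by
    intro ω hω
    rw [hζ']
    simp only
    rw [← hv ω hω, hG.cls ω (hBA ω hω)]
    rfl
  obtain ⟨Gn, hGn⟩ : ∃ Gn : Option (Y × ((((ℕ × κ) × ((Fin m → ℤ) × (Fin m → ℤ))) × F.ζ))) →
      MvPolynomial (Option (Fin n)) ℝ, Gn = fun o => match o with
      | none => 0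
      | some p => if β p.2.1.1.2 t = 0 ∧ ∀ i ∈ I, s i ≠ t then
          fq W (p.2.1.1.1 : ℝ) (fun i => (p.2.1.2.1 i : ℝ)) (fun i => (p.2.1.2.2 i : ℝ)) e I s t
            (a p.2.1.1.2) (β p.2.1.1.2) (G p.1) else 0 := ⟨_, rfl⟩
  refine ⟨B, hBA, ?_, _, ζ, ζ', Gn, ?_, ?_, ?_, ?_⟩
  · have h1 := mul_le_mul_of_nonneg_left hPB0 (Real.exp_pos (-b)).le
    have h2 := mul_le_mul_of_nonneg_left hPB p1.le
    calc Real.exp (-b) * Pe F.p A ≤ Real.exp (-b) * ((2 * Kc + 1) ^ m * Pe F.p B₀) := h1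
      _ = (2 * Kc + 1) ^ m * (Real.exp (-b) * Pe F.p B₀) := by ring
      _ ≤ _ := h2
  · intro o
    rw [hGn]
    rcases o with _ | p
    · simp only
      rw [totalDegree_zero]
      exact Nat.zero_le _
    · simp only
      split_ifs
      · exact deg_fq W _ _ _ e I s t _ _ (hG.deg _)
      · rw [totalDegree_zero]
        exact Nat.zero_le _
  · intro o b₁ b₂ h0 h1
    rw [hGn]
    rcases o with _ | p
    · simp only [map_zero]
    · simp only
      split_ifs with hc
      · exact dep_fq W _ _ _ e hc.2 hc.1 (hG.dep _) h0 fun j hj =>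
          h1 j (Finset.mem_erase.2 ⟨hj, Finset.mem_univ _⟩)
      · rw [map_zero, map_zero]
  · intro ω hω
    rw [hζ ω hω, hζ'v ω hω, hG.cls ω (hBA ω hω)]
  · intro ω hω
    rw [hζ'v ω hω, hGn]
    simp only
    have hFω := hF ω (hBA ω hω)
    have hc : β (F.blab W C (fun ω => z' (slam F W ω)) ω).1.1.2 t = 0 ∧ ∀ i ∈ I, s i ≠ t :=
      ⟨hFω.βt, hFω.ne⟩
    rw [if_pos hc]
    refine (fq_pos h (g := fun ω => z' (slam F W ω)) hM hFω hP hR (hG.dep _)
      (fun b hb => hG.pos ω (hBA ω hω) b hb)).trans ?_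
    rw [div_le_div_iff₀ (by positivity) (by positivity), one_mul]
    exact hP'

end Pool.ZFW
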